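import Mathlib
import Pool.Agent.H62.FalseThetaDefs
import Pool.Agent.H62.FalseTheta

set_option autoImplicit false

namespace Pool.Agent.Results.MP_d4d41d_nt.Positive

open Pool.Agent.H62.FalseTheta

theorem result : ∀ n : ℕ, 7 ≤ n → 0 < b n := b_pos

end Pool.Agent.Results.MP_d4d41d_nt.Positive
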